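import Pool.Agent.H84.B2.Targets
import Pool.Agent.H19.LS.STRONG

/-!
Row SV2 of `br_modules`: sup bounds for the pieces and the tail of their kernels.
-/

set_option autoImplicit false

namespace Pool.Agent.H27.BR

open MeasureTheory Set FourierTransform
open Pool.Agent.H83.LS Pool.Agent.H93.AR Pool.Agent.H54.LS Pool.Agent.H14.LS Pool.Agent.H83.AR
open Pool.Agent.H84.BR Pool.Agent.H84.B2
open scoped ENNReal NNReal SchwartzMap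

/-- polar coordinates for radial functions -/
theorem lint_polar (n : ℕ) (hn : 1 ≤ n) (h : ℝ → ℝ≥0∞) (hh : Measurable h) :
    ∫⁻ z : EE n, h ‖z‖ =
      sg n univ * ∫⁻ r in Ioi (0 : ℝ), ENNReal.ofReal (r ^ (n - 1)) * h r := by
  have hm : Measurable fun z : EE n => h ‖z‖ := hh.comp measurable_norm
  rw [← (mp_polar n hn).lintegral_comp hm]
  have h1 : (fun q : Sp n × Ioi (0 : ℝ) => h ‖(q.2 : ℝ) • (q.1 : EE n)‖) =
      fun q => h (q.2 : ℝ) := by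
    funext q
    have h2 : ‖(q.1 : EE n)‖ = 1 := by
      have h3 := q.1.2
      rwa [mem_sphere_zero_iff_norm] at h3
    rw [norm_smul, Real.norm_eq_abs, abs_of_pos q.2.2, h2, mul_one]
  show ∫⁻ q, (fun q : Sp n × Ioi (0 : ℝ) => h ‖(q.2 : ℝ) • (q.1 : EE n)‖) q
    ∂((sg n).prod (nu n)) = _
  rw [h1]
  have hm2 : Measurable fun r : Ioi (0 : ℝ) => h (r : ℝ) := hh.comp measurable_subtype_coe
  have hm1 : Measurable fun t : Ioi (0 : ℝ) => ENNReal.ofReal (t.1 ^ (n - 1)) :=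
    ENNReal.measurable_ofReal.comp (measurable_subtype_coe.pow_const _)
  have hm3 : Measurable fun q : Sp n × Ioi (0 : ℝ) => h (q.2 : ℝ) := hm2.comp measurable_snd
  rw [lintegral_prod _ hm3.aemeasurable]
  simp only [lintegral_const]
  rw [mul_comm]
  congr 1
  show ∫⁻ t : Ioi (0 : ℝ), h (t : ℝ) ∂(Measure.volumeIoiPow (n - 1)) = _
  rw [Measure.volumeIoiPow, lintegral_withDensity_eq_lintegral_mul _ hm1 hm2]
  exact lintegral_subtype_comap measurableSet_Ioi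
    (fun t : ℝ => ENNReal.ofReal (t ^ (n - 1)) * h t)

/-- scaling on the line -/
theorem lin_scale (g : ℝ → ℝ≥0∞) (hg : Measurable g) (lam t : ℝ) (hl : 0 < lam) :
    ∫⁻ r : ℝ, g (lam * (r - t)) = ENNReal.ofReal lam⁻¹ * ∫⁻ u : ℝ, g u := by
  have h1 : ∫⁻ r : ℝ, g (lam * (r - t)) = ∫⁻ r : ℝ, g (lam * r) :=
    lintegral_sub_right_eq_self (fun r => g (lam * r)) t
  have h2 : ∫⁻ r : ℝ, g (lam * r) = ∫⁻ u : ℝ, g u ∂(Measure.map (lam * ·) volume) :=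
    (lintegral_map hg (measurable_const_mul lam)).symm
  rw [h1, h2, Real.map_volume_mul_left hl.ne', lintegral_smul_measure, abs_of_pos (by positivity),
    smul_eq_mul]

/-- convolution bound -/
theorem MM_bound (hPLE : T_PLE) {d : ℕ} (m : EE d → ℂ) (hm : Measurable m) (hb : ∀ ξ, ‖m ξ‖ ≤ 1)
    (hi : Integrable m) (A : ℝ) (f : EE d → ℂ) (hf : BI A f) (x : EE d) (S : Set (EE d))
    (hSm : MeasurableSet S) (hS : ∀ z, f (x - z) ≠ 0 → z ∈ S) :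
    ‖MM m f x‖ₑ ≤ ENNReal.ofReal A * ∫⁻ z in S, ‖MK m z‖ₑ := by
  rw [(hPLE d m f hm hb hi hf.2.1 ⟨A, hf.2.2⟩ hf.1).1 x]
  refine (enorm_integral_le_lintegral_enorm _).trans ?_
  have h1 : ∫⁻ y : EE d, ‖MK m (x - y) * f y‖ₑ = ∫⁻ z : EE d, ‖MK m z * f (x - z)‖ₑ := by
    have h2 := lintegral_sub_left_eq_self (μ := (volume : Measure (EE d)))
      (fun z => ‖MK m z * f (x - z)‖ₑ) x
    rw [← h2]
    refine lintegral_congr fun y => ?_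
    rw [sub_sub_cancel]
  rw [h1, ← lintegral_const_mul' _ _ ENNReal.ofReal_ne_top, ← lintegral_indicator hSm]
  refine lintegral_mono fun z => ?_
  by_cases hz : z ∈ S
  · rw [indicator_of_mem hz, enorm_mul, mul_comm]
    apply mul_le_mul' _ le_rfl
    rw [← ofReal_norm]
    exact ENNReal.ofReal_le_ofReal (hf.2.2 _)
  · rw [indicator_of_notMem hz]
    have h3 : f (x - z) = 0 := by
      by_contra h4
      exact hz (hS z h4)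
    rw [h3]
    simp

/-- functions of the norms of the blocks -/
theorem lint_jm (hJM : T_JM) (a b : ℕ) (S₁ : Set (EE a)) (S₂ : Set (EE b))
    (h₁ : MeasurableSet S₁) (h₂ : MeasurableSet S₂) (H : ℝ → ℝ → ℝ≥0∞)
    (hH : Measurable (fun q : ℝ × ℝ => H q.1 q.2)) :
    ∫⁻ z in {z : EE (a + b) | p1 a b z ∈ S₁ ∧ p2 a b z ∈ S₂}, H ‖p1 a b z‖ ‖p2 a b z‖ =
      ∫⁻ z₁ in S₁, ∫⁻ z₂ in S₂, H ‖z₁‖ ‖z₂‖ := by
  obtain ⟨hp, hj, hin, hns, hcj, hc1, hc2, hcs, hmp, -⟩ := hJM a b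
  have hS : MeasurableSet {z : EE (a + b) | p1 a b z ∈ S₁ ∧ p2 a b z ∈ S₂} :=
    (hc1.measurable h₁).inter (hc2.measurable h₂)
  have hF : Measurable fun z : EE (a + b) => H ‖p1 a b z‖ ‖p2 a b z‖ :=
    hH.comp ((hc1.measurable.norm).prodMk (hc2.measurable.norm))
  rw [← hmp.setLIntegral_comp_preimage hS hF]
  have h1 : (fun q : EE a × EE b => jm a b q.1 q.2) ⁻¹'
      {z : EE (a + b) | p1 a b z ∈ S₁ ∧ p2 a b z ∈ S₂} = S₁ ×ˢ S₂ := by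
    ext q
    simp only [mem_preimage, mem_setOf_eq, (hp q.1 q.2).1, (hp q.1 q.2).2, mem_prod]
  rw [h1, ← Measure.prod_restrict]
  have h2 : Measurable fun q : EE a × EE b => H ‖q.1‖ ‖q.2‖ :=
    hH.comp ((measurable_norm.comp measurable_fst).prodMk (measurable_norm.comp measurable_snd))
  have h3 : (fun q : EE a × EE b => H ‖p1 a b (jm a b q.1 q.2)‖ ‖p2 a b (jm a b q.1 q.2)‖) =
      fun q : EE a × EE b => H ‖q.1‖ ‖q.2‖ := by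
    funext q
    rw [(hp q.1 q.2).1, (hp q.1 q.2).2]
  rw [h3, lintegral_prod _ h2.aemeasurable]

/-- the weights -/
theorem wt_mono (X : ℝ) (hX : 0 ≤ X) {M N : ℕ} (h : M ≤ N) :
    ((1 + X) ^ N)⁻¹ ≤ ((1 + X) ^ M)⁻¹ := by
  apply inv_anti₀ (by positivity)
  exact pow_le_pow_right₀ (by linarith) h

theorem wt_le_one (X : ℝ) (hX : 0 ≤ X) (N : ℕ) : ((1 + X) ^ N)⁻¹ ≤ 1 := by
  have := wt_mono X hX (Nat.zero_le N)
  simpa using this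

theorem eta0_abs (s : ℝ) : |eta0 s| ≤ 1 := by
  unfold eta0
  rw [abs_of_nonneg (Real.smoothTransition.nonneg _)]
  exact Real.smoothTransition.le_one _

theorem eta0_meas : Measurable eta0 := by
  unfold eta0
  exact (Real.smoothTransition.continuous.comp (by fun_prop)).measurable

theorem chi_meas : Measurable chi := by
  unfold chi
  exact eta0_meas.sub (eta0_meas.comp (by fun_prop))

theorem CT_meas {Lam : ℝ} {c : ℝ → ℝ} (h : CT Lam c) : Measurable c ∧ ∀ s, |c s| ≤ 1 := by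
  rcases h with h | h
  · have : c = fun s => eta0 (s / Lam) := funext h
    rw [this]
    exact ⟨eta0_meas.comp (by fun_prop), fun s => eta0_abs _⟩
  · have : c = fun s => chi (s / Lam) := funext h
    rw [this]
    exact ⟨chi_meas.comp (by fun_prop), fun s => Pool.Agent.H19.LS.chi_abs _⟩

theorem mc_basic (hJM : T_JM) (a b : ℕ) (lam Lam₁ Lam₂ t : ℝ) (c₁ c₂ : ℝ → ℝ) (hl : 0 < lam)
    (h₁ : CT Lam₁ c₁) (h₂ : CT Lam₂ c₂) :
    Measurable (mc a b c₁ c₂ lam t) ∧ (∀ ξ, ‖mc a b c₁ c₂ lam t ξ‖ ≤ 1) ∧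
      Integrable (mc a b c₁ c₂ lam t) := by
  obtain ⟨hp, hj, hin, hns, hcj, hc1, hc2, -⟩ := hJM a b
  obtain ⟨hm1, hb1⟩ := CT_meas h₁
  obtain ⟨hm2, hb2⟩ := CT_meas h₂
  have hm : Measurable (mc a b c₁ c₂ lam t) := by
    unfold mc
    apply (Pool.Agent.H19.LS.mT_cont lam hl t).measurable.mul
    exact Complex.measurable_ofReal.comp ((hm1.comp hc1.measurable.norm).mul
      (hm2.comp hc2.measurable.norm))
  have hle : ∀ ξ, ‖mc a b c₁ c₂ lam t ξ‖ ≤ ‖mT lam t ξ‖ := by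
    intro ξ
    unfold mc
    rw [norm_mul, Complex.norm_real, Real.norm_eq_abs, abs_mul]
    have h3 : |c₁ ‖p1 a b ξ‖| * |c₂ ‖p2 a b ξ‖| ≤ 1 * 1 :=
      mul_le_mul (hb1 _) (hb2 _) (abs_nonneg _) zero_le_one
    calc ‖mT lam t ξ‖ * (|c₁ ‖p1 a b ξ‖| * |c₂ ‖p2 a b ξ‖|) ≤ ‖mT lam t ξ‖ * 1 := by
          apply mul_le_mul_of_nonneg_left _ (norm_nonneg _)
          linarith
      _ = _ := mul_one _
  refine ⟨hm, fun ξ => (hle ξ).trans (Pool.Agent.H19.LS.mT_le lam hl t ξ), ?_⟩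
  exact (Pool.Agent.H19.LS.mT_int lam hl t).mono hm.aestronglyMeasurable
    (Filter.Eventually.of_forall fun ξ => hle ξ)

/-- conversion to real numbers -/
theorem le_of_enorm {v : ℂ} {y : ℝ} (hy : 0 ≤ y) (h : ‖v‖ₑ ≤ ENNReal.ofReal y) : ‖v‖ ≤ y := by
  rw [← ofReal_norm] at h
  exact (ENNReal.ofReal_le_ofReal_iff hy).1 h

/-- the constant `∫ (1+|u|)^(-2)` -/
noncomputable def I2 : ℝ≥0∞ := ∫⁻ u : ℝ, ENNReal.ofReal (((1 + |u|) ^ 2)⁻¹)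

theorem I2_lt : I2 < ⊤ := by
  have h1 : Integrable (fun u : ℝ => (1 + ‖u‖) ^ (-(2 : ℝ))) :=
    integrable_one_add_norm (by simp)
  have h2 : I2 = ∫⁻ u : ℝ, ENNReal.ofReal ((1 + ‖u‖) ^ (-(2 : ℝ))) := by
    unfold I2
    refine lintegral_congr fun u => ?_
    rw [Real.rpow_neg (by positivity), Real.rpow_two, Real.norm_eq_abs]
  rw [h2]
  exact h1.lintegral_lt_top

theorem lin2 (lam t : ℝ) (hl : 0 < lam) :
    ∫⁻ r : ℝ, ENNReal.ofReal (((1 + lam * |r - t|) ^ 2)⁻¹) = ENNReal.ofReal lam⁻¹ * I2 := by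
  unfold I2
  rw [← lin_scale (fun u => ENNReal.ofReal (((1 + |u|) ^ 2)⁻¹)) (by fun_prop) lam t hl]
  refine lintegral_congr fun r => ?_
  rw [abs_mul, abs_of_pos hl]

/-- the mass of the shell -/
theorem shell (d : ℕ) (hd : 1 ≤ d) (lam t : ℝ) (hl : 1 ≤ lam) (ht : t ∈ Icc (1 : ℝ) 2) :
    ∫⁻ z : EE d, ENNReal.ofReal (((1 + lam * |‖z‖ - t|) ^ (d + 1))⁻¹) ≤
      sg d univ * (ENNReal.ofReal (2 ^ (d - 1)) * (ENNReal.ofReal lam⁻¹ * I2)) := by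
  rw [lint_polar d hd (fun r => ENNReal.ofReal (((1 + lam * |r - t|) ^ (d + 1))⁻¹)) (by fun_prop)]
  apply mul_le_mul' le_rfl
  rw [← lin2 lam t (by linarith), ← lintegral_const_mul' _ _ ENNReal.ofReal_ne_top]
  refine (setLIntegral_mono' measurableSet_Ioi fun r hr => ?_).trans (setLIntegral_le_lintegral _ _)
  have hr0 : (0 : ℝ) < r := hr
  rw [← ENNReal.ofReal_mul (by positivity), ← ENNReal.ofReal_mul (by positivity)]
  apply ENNReal.ofReal_le_ofReal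
  set X : ℝ := lam * |r - t| with hX
  have hX0 : 0 ≤ X := by positivity
  have h1 : r ≤ 2 * (1 + X) := by
    have h2 : r - t ≤ |r - t| := le_abs_self _
    have h3 : |r - t| ≤ X := by
      rw [hX]
      nlinarith [abs_nonneg (r - t)]
    linarith [ht.2]
  have h4 : r ^ (d - 1) ≤ 2 ^ (d - 1) * (1 + X) ^ (d - 1) := by
    rw [← mul_pow]
    exact pow_le_pow_left₀ hr0.le h1 _
  have h5 : ((1 + X) ^ (d + 1))⁻¹ = ((1 + X) ^ (d - 1))⁻¹ * ((1 + X) ^ 2)⁻¹ := by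
    rw [← mul_inv, ← pow_add]
    congr 2
    omega
  rw [h5]
  have h6 : 0 < (1 + X) ^ (d - 1) := by positivity
  calc r ^ (d - 1) * (((1 + X) ^ (d - 1))⁻¹ * ((1 + X) ^ 2)⁻¹)
      ≤ (2 ^ (d - 1) * (1 + X) ^ (d - 1)) * (((1 + X) ^ (d - 1))⁻¹ * ((1 + X) ^ 2)⁻¹) :=
        mul_le_mul_of_nonneg_right h4 (by positivity)
    _ = 2 ^ (d - 1) * ((1 + X) ^ 2)⁻¹ := by
        field_simp

/-- the tail -/
theorem tail (d : ℕ) : ∃ C : ℝ≥0, ∀ lam t : ℝ, 1 ≤ lam → t ∈ Icc (1 : ℝ) 2 →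
    ∫⁻ z in {z : EE d | 8 ≤ ‖z‖}, ENNReal.ofReal (((1 + lam * |‖z‖ - t|) ^ (d + 1))⁻¹) ≤
      C * ENNReal.ofReal ((lam ^ (d + 1))⁻¹) := by
  have h1 : Integrable (fun z : EE d => (1 + ‖z‖) ^ (-((d : ℝ) + 1))) := by
    apply integrable_one_add_norm
    rw [finrank_euclideanSpace_fin]
    linarith
  have h2 := h1.lintegral_lt_top
  refine ⟨(∫⁻ z : EE d, ENNReal.ofReal ((1 + ‖z‖) ^ (-((d : ℝ) + 1)))).toNNReal * 2 ^ (d + 1), ?_⟩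
  intro lam t hl ht
  rw [ENNReal.coe_mul, ENNReal.coe_toNNReal h2.ne, mul_assoc, ← lintegral_mul_const' _ _ (by
    exact ENNReal.mul_ne_top ENNReal.coe_ne_top ENNReal.ofReal_ne_top)]
  have hS : MeasurableSet {z : EE d | 8 ≤ ‖z‖} := measurableSet_le measurable_const measurable_norm
  refine (setLIntegral_mono' hS fun z hz => ?_).trans (setLIntegral_le_lintegral _ _)
  have hz8 : 8 ≤ ‖z‖ := hz
  have h3 : ((2 ^ (d + 1) : ℝ≥0) : ℝ≥0∞) = ENNReal.ofReal (2 ^ (d + 1)) := by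
    rw [← ENNReal.ofReal_coe_nnreal]
    congr 1
  rw [h3, ← ENNReal.ofReal_mul (by positivity), ← ENNReal.ofReal_mul (by positivity)]
  apply ENNReal.ofReal_le_ofReal
  have h4 : (1 + ‖z‖) / 2 * lam ≤ 1 + lam * |‖z‖ - t| := by
    have h5 : ‖z‖ - t ≤ |‖z‖ - t| := le_abs_self _
    have h6 : (1 + ‖z‖) / 2 ≤ |‖z‖ - t| := by linarith [ht.2]
    nlinarith
  have h7 : (1 + ‖z‖) ^ (-((d : ℝ) + 1)) = ((1 + ‖z‖) ^ (d + 1))⁻¹ := by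
    rw [Real.rpow_neg (by positivity), ← Real.rpow_natCast]
    push_cast
    rfl
  rw [h7]
  calc ((1 + lam * |‖z‖ - t|) ^ (d + 1))⁻¹ ≤ (((1 + ‖z‖) / 2 * lam) ^ (d + 1))⁻¹ := by
        apply inv_anti₀ (by positivity)
        exact pow_le_pow_left₀ (by positivity) h4 _
    _ = ((1 + ‖z‖) ^ (d + 1))⁻¹ * (2 ^ (d + 1) * (lam ^ (d + 1))⁻¹) := by
        rw [mul_pow, div_pow]
        field_simp

theorem toReal_coe (x : ℝ≥0∞) (h : x ≠ ⊤) : x = ENNReal.ofReal x.toReal :=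
  (ENNReal.ofReal_toReal h).symm

/-- weight of the second estimate -/
noncomputable def H2 (lam Lam t : ℝ) (N : ℕ) (r ρ : ℝ) : ℝ≥0∞ :=
  ENNReal.ofReal (((1 + lam * |Real.sqrt (r ^ 2 + ρ ^ 2) - t|) ^ N)⁻¹ *
    ((1 + lam / Lam * r) ^ N)⁻¹)

/-- weight of the third estimate -/
noncomputable def H3 (lam t : ℝ) (r ρ : ℝ) : ℝ≥0∞ :=
  ENNReal.ofReal (((1 + lam * |Real.sqrt (r ^ 2 + ρ ^ 2) - t|) ^ 2)⁻¹)

theorem H2_meas (lam Lam t : ℝ) (N : ℕ) : Measurable (fun q : ℝ × ℝ => H2 lam Lam t N q.1 q.2) := by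
  unfold H2
  fun_prop

theorem H3_meas (lam t : ℝ) : Measurable (fun q : ℝ × ℝ => H3 lam t q.1 q.2) := by
  unfold H3
  fun_prop

theorem H2_measr (lam Lam t : ℝ) (N : ℕ) (r : ℝ) : Measurable (fun ρ : ℝ => H2 lam Lam t N r ρ) := by
  unfold H2
  fun_prop

theorem H3_measr (lam t : ℝ) (r : ℝ) : Measurable (fun ρ : ℝ => H3 lam t r ρ) := by
  unfold H3
  fun_prop

theorem ball_meas {n : ℕ} (x : EE n) (δ : ℝ) : MeasurableSet {z : EE n | ‖z - x‖ ≤ δ} :=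
  measurableSet_le (measurable_norm.comp (measurable_id.sub_const _)) measurable_const

theorem step2 (hCAP : T_CAP) (a b : ℕ) (ha : 1 ≤ a) (hb : 1 ≤ b) :
    ∃ C : ℝ, 0 ≤ C ∧ ∀ (lam Lam t δ : ℝ) (N : ℕ) (x₂ : EE b) (X : ℝ≥0∞), 0 < δ →
    ∫⁻ r in Ioi (0 : ℝ), ENNReal.ofReal (r ^ (a - 1)) *
      ∫⁻ ρ in Ioi (0 : ℝ), H2 lam Lam t N r ρ ≤ X →
    ∫⁻ z₁ : EE a, ∫⁻ z₂ in {z₂ : EE b | ‖z₂ - x₂‖ ≤ δ}, H2 lam Lam t N ‖z₁‖ ‖z₂‖ ≤
      ENNReal.ofReal (C * δ ^ (b - 1)) * X := by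
  obtain ⟨Cb, hCb⟩ := hCAP b hb
  have hsa : sg a univ ≠ ⊤ := measure_ne_top _ _
  refine ⟨(Cb : ℝ) * (sg a univ).toReal, by positivity, ?_⟩
  intro lam Lam t δ N x₂ X hδ hX
  have hHu : Measurable (Function.uncurry (H2 lam Lam t N)) := H2_meas lam Lam t N
  have hHr : ∀ r, Measurable (H2 lam Lam t N r) := fun r => H2_measr lam Lam t N r
  have h1 : ∀ z₁ : EE a, ∫⁻ z₂ in {z₂ : EE b | ‖z₂ - x₂‖ ≤ δ}, H2 lam Lam t N ‖z₁‖ ‖z₂‖ ≤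
      (Cb * ENNReal.ofReal (δ ^ (b - 1))) * ∫⁻ ρ in Ioi (0 : ℝ), H2 lam Lam t N ‖z₁‖ ρ := by
    intro z₁
    refine (hCb δ x₂ (H2 lam Lam t N ‖z₁‖) hδ (hHr _)).trans ?_
    apply mul_le_mul' le_rfl
    exact lintegral_mono_set fun ρ hρ => hρ.1
  have hne : (Cb * ENNReal.ofReal (δ ^ (b - 1)) : ℝ≥0∞) ≠ ⊤ :=
    ENNReal.mul_ne_top ENNReal.coe_ne_top ENNReal.ofReal_ne_top
  refine (lintegral_mono h1).trans ?_
  rw [lintegral_const_mul' _ _ hne]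
  have hm3 : Measurable fun r : ℝ => ∫⁻ ρ in Ioi (0 : ℝ), H2 lam Lam t N r ρ :=
    hHu.lintegral_prod_right'
  rw [lint_polar a ha (fun r => ∫⁻ ρ in Ioi (0 : ℝ), H2 lam Lam t N r ρ) hm3]
  have e1 : ENNReal.ofReal ((Cb : ℝ) * (sg a univ).toReal * δ ^ (b - 1)) =
      (Cb : ℝ≥0∞) * ENNReal.ofReal (δ ^ (b - 1)) * sg a univ := by
    rw [ENNReal.ofReal_mul (by positivity), ENNReal.ofReal_mul (by positivity),
      ENNReal.ofReal_coe_nnreal, ENNReal.ofReal_toReal hsa]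
    ring
  rw [e1, mul_assoc ((Cb : ℝ≥0∞) * ENNReal.ofReal (δ ^ (b - 1)))]
  exact mul_le_mul' le_rfl (mul_le_mul' le_rfl hX)

/-- integration over both blocks, no restriction on the first one -/
theorem part2 (hCAP : T_CAP) (hQD : T_QD) (hJM : T_JM) (a b : ℕ) (ha : 1 ≤ a) (hb : 1 ≤ b) :
    ∃ (N : ℕ) (C : ℝ), 0 ≤ C ∧ ∀ (lam Lam t δ : ℝ) (x₂ : EE b), 1 ≤ lam → Real.sqrt lam ≤ Lam →
    Lam ≤ 4 * lam → t ∈ Icc (1 : ℝ) 2 → 0 < δ →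
    ∫⁻ z in {z : EE (a + b) | p1 a b z ∈ (univ : Set (EE a)) ∧
      p2 a b z ∈ {z₂ : EE b | ‖z₂ - x₂‖ ≤ δ}}, H2 lam Lam t N ‖p1 a b z‖ ‖p2 a b z‖ ≤
      ENNReal.ofReal (C * (δ ^ (b - 1) * (lam⁻¹ * (Lam / lam) ^ a))) := by
  obtain ⟨N, C₁, hC₁⟩ := hQD.1 a ha
  obtain ⟨Cb, hCb0, hCb⟩ := step2 hCAP a b ha hb
  refine ⟨N, Cb * C₁, by positivity, ?_⟩
  intro lam Lam t δ x₂ hl hL1 hL2 ht hδ
  have hl0 : 0 < lam := by linarith
  have hLam : 0 < Lam := lt_of_lt_of_le (Real.sqrt_pos.2 hl0) hL1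
  rw [lint_jm hJM a b univ {z₂ : EE b | ‖z₂ - x₂‖ ≤ δ} MeasurableSet.univ (ball_meas x₂ δ)
    (H2 lam Lam t N) (H2_meas lam Lam t N), Measure.restrict_univ]
  have h2 : ∫⁻ r in Ioi (0 : ℝ), ENNReal.ofReal (r ^ (a - 1)) *
      ∫⁻ ρ in Ioi (0 : ℝ), H2 lam Lam t N r ρ ≤
      C₁ * ENNReal.ofReal (lam⁻¹ * (Lam / lam) ^ a) := by
    refine le_trans (le_of_eq ?_) (hC₁ lam Lam t hl hL1 hL2 ht)
    have h3 : ∫⁻ r in Ioi (0 : ℝ), ENNReal.ofReal (r ^ (a - 1)) *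
        ∫⁻ ρ in Ioi (0 : ℝ), H2 lam Lam t N r ρ =
        ∫⁻ r in Ioi (0 : ℝ), ∫⁻ ρ in Ioi (0 : ℝ),
      ENNReal.ofReal (((1 + lam * |Real.sqrt (r ^ 2 + ρ ^ 2) - t|) ^ N)⁻¹ *
        ((1 + lam / Lam * r) ^ N)⁻¹ * r ^ (a - 1)) := by
      refine setLIntegral_congr_fun measurableSet_Ioi fun r hr => ?_
      have hr0 : (0 : ℝ) < r := hr
      show ENNReal.ofReal (r ^ (a - 1)) * ∫⁻ ρ in Ioi (0 : ℝ), H2 lam Lam t N r ρ = _
      rw [← lintegral_const_mul' _ _ ENNReal.ofReal_ne_top]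
      refine lintegral_congr fun ρ => ?_
      unfold H2
      rw [← ENNReal.ofReal_mul (by positivity), mul_comm (r ^ (a - 1))]
    rw [h3]
    apply lintegral_lintegral_swap
    have : Measurable (Function.uncurry fun r ρ : ℝ =>
      ENNReal.ofReal (((1 + lam * |Real.sqrt (r ^ 2 + ρ ^ 2) - t|) ^ N)⁻¹ *
        ((1 + lam / Lam * r) ^ N)⁻¹ * r ^ (a - 1))) := by
      unfold Function.uncurry
      fun_prop
    exact this.aemeasurable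
  refine (hCb lam Lam t δ N x₂ _ hδ h2).trans (le_of_eq ?_)
  have e2 : (C₁ : ℝ≥0∞) = ENNReal.ofReal (C₁ : ℝ) := ENNReal.ofReal_coe_nnreal.symm
  rw [e2, ← ENNReal.ofReal_mul (by positivity), ← ENNReal.ofReal_mul (by positivity)]
  congr 1
  ring

theorem step3 (hCAP : T_CAP) (a b : ℕ) (ha : 1 ≤ a) (hb : 1 ≤ b) :
    ∃ C : ℝ, 0 ≤ C ∧ ∀ (lam t δ₁ δ₂ : ℝ) (x₁ : EE a) (x₂ : EE b) (X : ℝ≥0∞), 0 < δ₁ → 0 < δ₂ →
    ∫⁻ r in {r : ℝ | 0 < r ∧ |r - ‖x₁‖| ≤ δ₁}, ∫⁻ ρ in {ρ : ℝ | 0 < ρ ∧ |ρ - ‖x₂‖| ≤ δ₂},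
      H3 lam t r ρ ≤ X →
    ∫⁻ z₁ in {z₁ : EE a | ‖z₁ - x₁‖ ≤ δ₁}, ∫⁻ z₂ in {z₂ : EE b | ‖z₂ - x₂‖ ≤ δ₂},
      H3 lam t ‖z₁‖ ‖z₂‖ ≤ ENNReal.ofReal (C * (δ₁ ^ (a - 1) * δ₂ ^ (b - 1))) * X := by
  obtain ⟨Cb, hCb⟩ := hCAP b hb
  obtain ⟨Ca, hCa⟩ := hCAP a ha
  refine ⟨(Cb : ℝ) * Ca, by positivity, ?_⟩
  intro lam t δ₁ δ₂ x₁ x₂ X hδ₁ hδ₂ hX
  have hHu : Measurable (Function.uncurry (H3 lam t)) := H3_meas lam t
  have hHr : ∀ r, Measurable (H3 lam t r) := fun r => H3_measr lam t r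
  have h1 : ∀ z₁ : EE a, ∫⁻ z₂ in {z₂ : EE b | ‖z₂ - x₂‖ ≤ δ₂}, H3 lam t ‖z₁‖ ‖z₂‖ ≤
      (Cb * ENNReal.ofReal (δ₂ ^ (b - 1))) *
        ∫⁻ ρ in {ρ : ℝ | 0 < ρ ∧ |ρ - ‖x₂‖| ≤ δ₂}, H3 lam t ‖z₁‖ ρ :=
    fun z₁ => hCb δ₂ x₂ (H3 lam t ‖z₁‖) hδ₂ (hHr _)
  have hne : (Cb * ENNReal.ofReal (δ₂ ^ (b - 1)) : ℝ≥0∞) ≠ ⊤ :=
    ENNReal.mul_ne_top ENNReal.coe_ne_top ENNReal.ofReal_ne_top
  refine (lintegral_mono h1).trans ?_
  rw [lintegral_const_mul' _ _ hne]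
  have hm3 : Measurable fun r : ℝ => ∫⁻ ρ in {ρ : ℝ | 0 < ρ ∧ |ρ - ‖x₂‖| ≤ δ₂}, H3 lam t r ρ :=
    hHu.lintegral_prod_right'
  have h2 := hCa δ₁ x₁ (fun r => ∫⁻ ρ in {ρ : ℝ | 0 < ρ ∧ |ρ - ‖x₂‖| ≤ δ₂}, H3 lam t r ρ) hδ₁ hm3
  have e1 : ENNReal.ofReal ((Cb : ℝ) * Ca * (δ₁ ^ (a - 1) * δ₂ ^ (b - 1))) =
      (Cb : ℝ≥0∞) * ENNReal.ofReal (δ₂ ^ (b - 1)) * (Ca * ENNReal.ofReal (δ₁ ^ (a - 1))) := by
    rw [ENNReal.ofReal_mul (by positivity), ENNReal.ofReal_mul (by positivity),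
      ENNReal.ofReal_mul (by positivity), ENNReal.ofReal_coe_nnreal, ENNReal.ofReal_coe_nnreal]
    ring
  rw [e1, mul_assoc ((Cb : ℝ≥0∞) * ENNReal.ofReal (δ₂ ^ (b - 1)))]
  exact mul_le_mul' le_rfl (h2.trans (mul_le_mul' le_rfl hX))

/-- integration over small balls in both blocks -/
theorem part3 (hCAP : T_CAP) (hQD : T_QD) (hJM : T_JM) (a b : ℕ) (ha : 1 ≤ a) (hb : 1 ≤ b) :
    ∃ C : ℝ, 0 ≤ C ∧ ∀ (lam t δ₁ δ₂ : ℝ) (x₁ : EE a) (x₂ : EE b), 1 ≤ lam → 0 < δ₁ → 0 < δ₂ →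
    ∫⁻ z in {z : EE (a + b) | p1 a b z ∈ {z₁ : EE a | ‖z₁ - x₁‖ ≤ δ₁} ∧
      p2 a b z ∈ {z₂ : EE b | ‖z₂ - x₂‖ ≤ δ₂}}, H3 lam t ‖p1 a b z‖ ‖p2 a b z‖ ≤
      ENNReal.ofReal (C * (δ₁ ^ (a - 1) * (δ₂ ^ (b - 1) * ((δ₁ + δ₂) / lam)))) := by
  obtain ⟨C₂, hC₂⟩ := hQD.2
  obtain ⟨Cb, hCb0, hCb⟩ := step3 hCAP a b ha hb
  refine ⟨Cb * C₂, by positivity, ?_⟩
  intro lam t δ₁ δ₂ x₁ x₂ hl hδ₁ hδ₂
  rw [lint_jm hJM a b {z₁ : EE a | ‖z₁ - x₁‖ ≤ δ₁} {z₂ : EE b | ‖z₂ - x₂‖ ≤ δ₂}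
    (ball_meas x₁ δ₁) (ball_meas x₂ δ₂) (H3 lam t) (H3_meas lam t)]
  have hHu : Measurable (Function.uncurry (H3 lam t)) := H3_meas lam t
  have h3 : ∫⁻ r in {r : ℝ | 0 < r ∧ |r - ‖x₁‖| ≤ δ₁},
      ∫⁻ ρ in {ρ : ℝ | 0 < ρ ∧ |ρ - ‖x₂‖| ≤ δ₂}, H3 lam t r ρ ≤
      C₂ * ENNReal.ofReal ((δ₁ + δ₂) / lam) := by
    refine le_trans (le_of_eq ?_) (hC₂ lam t δ₁ δ₂ ‖x₁‖ ‖x₂‖ hl hδ₁ hδ₂)
    exact lintegral_lintegral_swap hHu.aemeasurable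
  refine (hCb lam t δ₁ δ₂ x₁ x₂ _ hδ₁ hδ₂ h3).trans (le_of_eq ?_)
  have e2 : (C₂ : ℝ≥0∞) = ENNReal.ofReal (C₂ : ℝ) := ENNReal.ofReal_coe_nnreal.symm
  rw [e2, ← ENNReal.ofReal_mul (by positivity), ← ENNReal.ofReal_mul (by positivity)]
  congr 1
  ring

theorem norm_eq (hJM : T_JM) (a b : ℕ) (z : EE (a + b)) :
    Real.sqrt (‖p1 a b z‖ ^ 2 + ‖p2 a b z‖ ^ 2) = ‖z‖ := by
  obtain ⟨hp, hj, hin, hns, -⟩ := hJM a b
  rw [← hns z, Real.sqrt_sq (norm_nonneg z)]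

/-- SV2 -/
theorem pf_sv2 (hK : T_KPC) (hCAP : T_CAP) (hQD : T_QD) (hJM : T_JM) (hPLE : T_PLE) : T_SV2 := by
  intro a b ha hb
  obtain ⟨N₁, C₁, hC₁0, hC₁⟩ := part2 hCAP hQD hJM a b ha hb
  obtain ⟨C₂, hC₂0, hC₂⟩ := part3 hCAP hQD hJM a b ha hb
  obtain ⟨C₃, hC₃⟩ := tail (a + b)
  obtain ⟨CK, hCK0, hCK⟩ := hK a b (N₁ + (a + b + 1) + 2) ha hb
  set N : ℕ := N₁ + (a + b + 1) + 2 with hN
  have hsa : sg (a + b) univ ≠ ⊤ := measure_ne_top _ _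
  have hI2 : I2 ≠ ⊤ := I2_lt.ne
  set D₁ : ℝ := (sg (a + b) univ).toReal * (2 ^ (a + b - 1) * I2.toReal) with hD₁
  have hD₁0 : 0 ≤ D₁ := by positivity
  refine ⟨CK * (D₁ + C₁ + C₂ + C₃), by positivity, ?_⟩
  intro lam Lam₁ Lam₂ t c₁ c₂ hl hL1 hL1' hL2 hL2' hc₁ hc₂ ht
  have hl0 : 0 < lam := by linarith
  have hLam₁ : 0 < Lam₁ := lt_of_lt_of_le (Real.sqrt_pos.2 hl0) hL1
  have hLam₂ : 0 < Lam₂ := lt_of_lt_of_le (Real.sqrt_pos.2 hl0) hL2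
  obtain ⟨hmm, hmb, hmi⟩ := mc_basic hJM a b lam Lam₁ Lam₂ t c₁ c₂ hl0 hc₁ hc₂
  set K : ℝ := CK * lam ^ (((a : ℝ) + b + 1) / 2) with hKdef
  have hK0 : 0 ≤ K := by positivity
  have hlp : lam ^ (((a : ℝ) + b + 1) / 2) * lam⁻¹ = lam ^ (((a : ℝ) + b - 1) / 2) := by
    rw [← Real.rpow_neg_one lam, ← Real.rpow_add hl0]
    congr 1
    ring
  -- pointwise bounds
  have hpt : ∀ z, ‖MK (mc a b c₁ c₂ lam t) z‖ ≤ K * ((1 + lam * |‖z‖ - t|) ^ N)⁻¹ *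
      ((1 + lam / Lam₁ * ‖p1 a b z‖) ^ N)⁻¹ := by
    intro z
    refine (hCK lam Lam₁ Lam₂ t c₁ c₂ z hl hL1 hL2 hc₁ hc₂ ht).trans ?_
    have h1 := wt_le_one (lam / Lam₂ * ‖p2 a b z‖) (by positivity) N
    have h2 : 0 ≤ K * ((1 + lam * |‖z‖ - t|) ^ N)⁻¹ *
      ((1 + lam / Lam₁ * ‖p1 a b z‖) ^ N)⁻¹ := by positivity
    calc _ ≤ K * ((1 + lam * |‖z‖ - t|) ^ N)⁻¹ * ((1 + lam / Lam₁ * ‖p1 a b z‖) ^ N)⁻¹ * 1 :=
          mul_le_mul_of_nonneg_left h1 h2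
      _ = _ := mul_one _
  have hpt1 : ∀ (z : EE (a + b)) (M : ℕ), M ≤ N → ‖MK (mc a b c₁ c₂ lam t) z‖ₑ ≤
      ENNReal.ofReal K * ENNReal.ofReal (((1 + lam * |‖z‖ - t|) ^ M)⁻¹) := by
    intro z M hM
    rw [← ofReal_norm, ← ENNReal.ofReal_mul hK0]
    apply ENNReal.ofReal_le_ofReal
    refine (hpt z).trans ?_
    have h1 := wt_le_one (lam / Lam₁ * ‖p1 a b z‖) (by positivity) N
    have h2 := wt_mono (lam * |‖z‖ - t|) (by positivity) hM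
    calc K * ((1 + lam * |‖z‖ - t|) ^ N)⁻¹ * ((1 + lam / Lam₁ * ‖p1 a b z‖) ^ N)⁻¹
        ≤ K * ((1 + lam * |‖z‖ - t|) ^ N)⁻¹ * 1 :=
          mul_le_mul_of_nonneg_left h1 (by positivity)
      _ = K * ((1 + lam * |‖z‖ - t|) ^ N)⁻¹ := mul_one _
      _ ≤ _ := mul_le_mul_of_nonneg_left h2 hK0
  have hpt2 : ∀ z : EE (a + b), ‖MK (mc a b c₁ c₂ lam t) z‖ₑ ≤
      ENNReal.ofReal K * H2 lam Lam₁ t N₁ ‖p1 a b z‖ ‖p2 a b z‖ := by
    intro z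
    unfold H2
    rw [norm_eq hJM a b z, ← ofReal_norm, ← ENNReal.ofReal_mul hK0]
    apply ENNReal.ofReal_le_ofReal
    refine (hpt z).trans ?_
    rw [mul_assoc]
    apply mul_le_mul_of_nonneg_left _ hK0
    exact mul_le_mul (wt_mono _ (by positivity) (by omega)) (wt_mono _ (by positivity) (by omega))
      (by positivity) (by positivity)
  have hpt3 : ∀ z : EE (a + b), ‖MK (mc a b c₁ c₂ lam t) z‖ₑ ≤
      ENNReal.ofReal K * H3 lam t ‖p1 a b z‖ ‖p2 a b z‖ := by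
    intro z
    unfold H3
    rw [norm_eq hJM a b z]
    exact hpt1 z 2 (by omega)
  obtain ⟨hp, hj, hin, hns, hcj, hc1, hc2, -⟩ := hJM a b
  have hsub2 : ∀ x z : EE (a + b), p2 a b (x - z) = p2 a b x - p2 a b z := by
    intro x z
    rfl
  have hsub1 : ∀ x z : EE (a + b), p1 a b (x - z) = p1 a b x - p1 a b z := by
    intro x z
    rfl
  refine ⟨?_, ?_, ?_, ?_⟩
  · intro A f hf x
    have hA : 0 ≤ A := (norm_nonneg _).trans (hf.2.2 x)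
    apply le_of_enorm (by positivity)
    have h1 := MM_bound hPLE (mc a b c₁ c₂ lam t) hmm hmb hmi A f hf x univ MeasurableSet.univ
      (fun _ _ => mem_univ _)
    rw [Measure.restrict_univ] at h1
    refine h1.trans ?_
    have h2 : ∫⁻ z : EE (a + b), ‖MK (mc a b c₁ c₂ lam t) z‖ₑ ≤
        ENNReal.ofReal K * (sg (a + b) univ * (ENNReal.ofReal (2 ^ (a + b - 1)) *
          (ENNReal.ofReal lam⁻¹ * I2))) := by
      refine (lintegral_mono fun z => hpt1 z (a + b + 1) (by omega)).trans ?_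
      rw [lintegral_const_mul' _ _ ENNReal.ofReal_ne_top]
      exact mul_le_mul' le_rfl (shell (a + b) (by omega) lam t hl ht)
    refine (mul_le_mul' le_rfl h2).trans ?_
    rw [toReal_coe _ hsa, toReal_coe _ hI2]
    rw [← ENNReal.ofReal_mul (by positivity), ← ENNReal.ofReal_mul (by positivity),
      ← ENNReal.ofReal_mul (by positivity), ← ENNReal.ofReal_mul (by positivity),
      ← ENNReal.ofReal_mul (by positivity)]
    apply ENNReal.ofReal_le_ofReal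
    calc A * (K * ((sg (a + b) univ).toReal * (2 ^ (a + b - 1) * (lam⁻¹ * I2.toReal))))
        = CK * D₁ * (lam ^ (((a : ℝ) + b + 1) / 2) * lam⁻¹) * A := by
          rw [hKdef, hD₁]
          ring
      _ ≤ CK * (D₁ + C₁ + C₂ + C₃) * lam ^ (((a : ℝ) + b - 1) / 2) * A := by
          rw [hlp]
          have h3 : D₁ ≤ D₁ + C₁ + C₂ + C₃ := by
            have : (0 : ℝ) ≤ C₃ := C₃.2
            linarith
          gcongr
  · intro A δ f hf hδ hsupp x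
    have hA : 0 ≤ A := (norm_nonneg _).trans (hf.2.2 x)
    apply le_of_enorm (by positivity)
    have hS : MeasurableSet {z : EE (a + b) | p1 a b z ∈ (univ : Set (EE a)) ∧
        p2 a b z ∈ {z₂ : EE b | ‖z₂ - p2 a b x‖ ≤ δ}} :=
      (hc1.measurable MeasurableSet.univ).inter (hc2.measurable (ball_meas (p2 a b x) δ))
    have h1 := MM_bound hPLE (mc a b c₁ c₂ lam t) hmm hmb hmi A f hf x
      {z : EE (a + b) | p1 a b z ∈ (univ : Set (EE a)) ∧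
        p2 a b z ∈ {z₂ : EE b | ‖z₂ - p2 a b x‖ ≤ δ}} hS (by
        intro z hz
        refine ⟨mem_univ _, ?_⟩
        have h2 := hsupp (x - z) hz
        rw [hsub2] at h2
        show ‖p2 a b z - p2 a b x‖ ≤ δ
        rwa [norm_sub_rev])
    refine h1.trans ?_
    have h2 : ∫⁻ z in {z : EE (a + b) | p1 a b z ∈ (univ : Set (EE a)) ∧
        p2 a b z ∈ {z₂ : EE b | ‖z₂ - p2 a b x‖ ≤ δ}}, ‖MK (mc a b c₁ c₂ lam t) z‖ₑ ≤
        ENNReal.ofReal K * ENNReal.ofReal (C₁ * (δ ^ (b - 1) * (lam⁻¹ * (Lam₁ / lam) ^ a))) := by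
      refine (lintegral_mono fun z => hpt2 z).trans ?_
      rw [lintegral_const_mul' _ _ ENNReal.ofReal_ne_top]
      exact mul_le_mul' le_rfl (hC₁ lam Lam₁ t δ (p2 a b x) hl hL1 hL1' ht hδ)
    refine (mul_le_mul' le_rfl h2).trans ?_
    rw [← ENNReal.ofReal_mul (by positivity), ← ENNReal.ofReal_mul (by positivity)]
    apply ENNReal.ofReal_le_ofReal
    calc A * (K * (C₁ * (δ ^ (b - 1) * (lam⁻¹ * (Lam₁ / lam) ^ a))))
        = CK * C₁ * ((lam ^ (((a : ℝ) + b + 1) / 2) * lam⁻¹) * (Lam₁ / lam) ^ a * δ ^ (b - 1)) *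
          A := by
          rw [hKdef]
          ring
      _ ≤ _ := by
          rw [hlp]
          have h3 : C₁ ≤ D₁ + C₁ + C₂ + C₃ := by
            have : (0 : ℝ) ≤ C₃ := C₃.2
            linarith
          gcongr
  · intro A δ₁ δ₂ f hf hδ₁ hδ₂ hsupp x
    have hA : 0 ≤ A := (norm_nonneg _).trans (hf.2.2 x)
    apply le_of_enorm (by positivity)
    have hS : MeasurableSet {z : EE (a + b) | p1 a b z ∈ {z₁ : EE a | ‖z₁ - p1 a b x‖ ≤ δ₁} ∧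
        p2 a b z ∈ {z₂ : EE b | ‖z₂ - p2 a b x‖ ≤ δ₂}} :=
      (hc1.measurable (ball_meas (p1 a b x) δ₁)).inter (hc2.measurable (ball_meas (p2 a b x) δ₂))
    have h1 := MM_bound hPLE (mc a b c₁ c₂ lam t) hmm hmb hmi A f hf x
      {z : EE (a + b) | p1 a b z ∈ {z₁ : EE a | ‖z₁ - p1 a b x‖ ≤ δ₁} ∧
        p2 a b z ∈ {z₂ : EE b | ‖z₂ - p2 a b x‖ ≤ δ₂}} hS (by
        intro z hz
        have h2 := hsupp (x - z) hz
        rw [hsub1, hsub2] at h2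
        refine ⟨?_, ?_⟩
        · show ‖p1 a b z - p1 a b x‖ ≤ δ₁
          rw [norm_sub_rev]
          exact h2.1
        · show ‖p2 a b z - p2 a b x‖ ≤ δ₂
          rw [norm_sub_rev]
          exact h2.2)
    refine h1.trans ?_
    have h2 : ∫⁻ z in {z : EE (a + b) | p1 a b z ∈ {z₁ : EE a | ‖z₁ - p1 a b x‖ ≤ δ₁} ∧
        p2 a b z ∈ {z₂ : EE b | ‖z₂ - p2 a b x‖ ≤ δ₂}}, ‖MK (mc a b c₁ c₂ lam t) z‖ₑ ≤
        ENNReal.ofReal K *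
          ENNReal.ofReal (C₂ * (δ₁ ^ (a - 1) * (δ₂ ^ (b - 1) * ((δ₁ + δ₂) / lam)))) := by
      refine (lintegral_mono fun z => hpt3 z).trans ?_
      rw [lintegral_const_mul' _ _ ENNReal.ofReal_ne_top]
      exact mul_le_mul' le_rfl (hC₂ lam t δ₁ δ₂ (p1 a b x) (p2 a b x) hl hδ₁ hδ₂)
    refine (mul_le_mul' le_rfl h2).trans ?_
    rw [← ENNReal.ofReal_mul (by positivity), ← ENNReal.ofReal_mul (by positivity)]
    apply ENNReal.ofReal_le_ofReal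
    calc A * (K * (C₂ * (δ₁ ^ (a - 1) * (δ₂ ^ (b - 1) * ((δ₁ + δ₂) / lam)))))
        = CK * C₂ * ((lam ^ (((a : ℝ) + b + 1) / 2) * lam⁻¹) * δ₁ ^ (a - 1) * δ₂ ^ (b - 1) *
          (δ₁ + δ₂)) * A := by
          rw [hKdef]
          ring
      _ ≤ _ := by
          rw [hlp]
          have h3 : C₂ ≤ D₁ + C₁ + C₂ + C₃ := by
            have : (0 : ℝ) ≤ C₃ := C₃.2
            linarith
          gcongr
  · have h1 : ∫⁻ x in {x : EE (a + b) | 8 ≤ ‖x‖}, ‖MK (mc a b c₁ c₂ lam t) x‖ₑ ≤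
        ENNReal.ofReal K * (C₃ * ENNReal.ofReal ((lam ^ (a + b + 1))⁻¹)) := by
      refine (lintegral_mono fun z => hpt1 z (a + b + 1) (by omega)).trans ?_
      rw [lintegral_const_mul' _ _ ENNReal.ofReal_ne_top]
      exact mul_le_mul' le_rfl (hC₃ lam t hl ht)
    refine h1.trans ?_
    have e2 : (C₃ : ℝ≥0∞) = ENNReal.ofReal (C₃ : ℝ) := ENNReal.ofReal_coe_nnreal.symm
    rw [e2, ← ENNReal.ofReal_mul (by positivity), ← ENNReal.ofReal_mul (by positivity)]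
    apply ENNReal.ofReal_le_ofReal
    have h4 : lam ^ (((a : ℝ) + b + 1) / 2) * (lam ^ (a + b + 1))⁻¹ ≤ 1 := by
      rw [← div_eq_mul_inv, div_le_one (by positivity), ← Real.rpow_natCast]
      apply Real.rpow_le_rpow_of_exponent_le hl
      push_cast
      have : (0 : ℝ) ≤ (a : ℝ) := Nat.cast_nonneg a
      have : (0 : ℝ) ≤ (b : ℝ) := Nat.cast_nonneg b
      linarith
    calc K * (C₃ * (lam ^ (a + b + 1))⁻¹)
        = CK * C₃ * (lam ^ (((a : ℝ) + b + 1) / 2) * (lam ^ (a + b + 1))⁻¹) := by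
          rw [hKdef]
          ring
      _ ≤ CK * C₃ * 1 := mul_le_mul_of_nonneg_left h4 (by positivity)
      _ ≤ _ := by
          rw [mul_one]
          have h3 : (C₃ : ℝ) ≤ D₁ + C₁ + C₂ + C₃ := by linarith
          gcongr

end Pool.Agent.H27.BR
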